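import Pool.Agent.TH537.EQ.Defs

/-!
# Sections of cones (helper909), piece `S_SEC` of helper537's plan
-/

set_option autoImplicit false

open MeasureTheory Set
open scoped ENNReal Pointwise Matrix NNReal

namespace Pool.Agent.TH909.EQ

open Pool.Agent.TH537.EQ

/-- linear coordinates adapted to a hyperplane -/
theorem exists_coord {k : ℕ} (e c : Fin (k + 1) → ℝ) (h : c ⬝ᵥ e = 1) :
    ∃ Φ : ((Fin k → ℝ) × ℝ) ≃ₗ[ℝ] (Fin (k + 1) → ℝ), (∀ p, Φ p ⬝ᵥ e = p.2) ∧ Φ (0, 1) = c := by
  let f : (Fin (k + 1) → ℝ) →ₗ[ℝ] ℝ :=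
    { toFun := fun x => x ⬝ᵥ e
      map_add' := fun x y => add_dotProduct x y e
      map_smul' := fun r x => by simp [smul_dotProduct] }
  have hf : ∀ x, f x = x ⬝ᵥ e := fun x => rfl
  have hr : LinearMap.range f = ⊤ := by
    rw [LinearMap.range_eq_top]
    intro y
    refine ⟨y • c, ?_⟩
    rw [map_smul, hf, h, smul_eq_mul, mul_one]
  have hk : Module.finrank ℝ (LinearMap.ker f) = k := by
    have := LinearMap.finrank_range_add_finrank_ker f
    rw [hr, finrank_top, Module.finrank_self, Module.finrank_fin_fun] at this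
    omega
  let ψ : (Fin k → ℝ) ≃ₗ[ℝ] LinearMap.ker f :=
    LinearEquiv.ofFinrankEq _ _ (by rw [Module.finrank_fin_fun, hk])
  let g : ((Fin k → ℝ) × ℝ) →ₗ[ℝ] (Fin (k + 1) → ℝ) :=
    { toFun := fun p => (ψ p.1 : Fin (k + 1) → ℝ) + p.2 • c
      map_add' := fun x y => by
        simp only [Prod.fst_add, Prod.snd_add, map_add, Submodule.coe_add, add_smul]
        abel
      map_smul' := fun r x => by
        simp only [Prod.smul_fst, Prod.smul_snd, map_smul, Submodule.coe_smul, smul_add,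
          smul_smul, RingHom.id_apply, smul_eq_mul] }
  have hg : ∀ p, g p = (ψ p.1 : Fin (k + 1) → ℝ) + p.2 • c := fun p => rfl
  have hge : ∀ p, g p ⬝ᵥ e = p.2 := by
    intro p
    have h1 : (ψ p.1 : Fin (k + 1) → ℝ) ⬝ᵥ e = 0 := (ψ p.1).2
    rw [hg, add_dotProduct, smul_dotProduct, h1, h, zero_add, smul_eq_mul, mul_one]
  have hinj : Function.Injective g := by
    rw [← LinearMap.ker_eq_bot, LinearMap.ker_eq_bot']
    intro p hp
    have h2 : p.2 = 0 := by
      rw [← hge p, hp, zero_dotProduct]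
    have h1 : (ψ p.1 : Fin (k + 1) → ℝ) = 0 := by
      have := hp
      rw [hg, h2, zero_smul, add_zero] at this
      exact this
    have h3 : p.1 = 0 := by
      have : ψ p.1 = 0 := Subtype.ext h1
      exact (LinearEquiv.map_eq_zero_iff ψ).1 this
    exact Prod.ext h3 h2
  refine ⟨LinearEquiv.ofInjectiveOfFinrankEq g hinj ?_, ?_, ?_⟩
  · rw [Module.finrank_prod, Module.finrank_fin_fun, Module.finrank_self, Module.finrank_fin_fun]
  · intro p
    exact hge p
  · change g (0, 1) = c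
    rw [hg]
    simp

/-- linear isomorphisms scale the volume -/
theorem exists_scale {k : ℕ} (Φ : ((Fin k → ℝ) × ℝ) ≃ₗ[ℝ] (Fin (k + 1) → ℝ)) :
    ∃ δ : ℝ, 0 < δ ∧ ∀ A : Set ((Fin k → ℝ) × ℝ), volume.real (Φ '' A) = δ * volume.real A := by
  let L := Φ.symm.toContinuousLinearEquiv
  haveI : (volume : Measure ((Fin k → ℝ) × ℝ)).IsAddHaarMeasure :=
    Measure.prod.instIsAddHaarMeasure volume volume
  let ν : Measure ((Fin k → ℝ) × ℝ) := Measure.map L volume
  haveI : ν.IsAddHaarMeasure := L.isAddHaarMeasure_map volume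
  have h1 : ν = Measure.addHaarScalarFactor ν volume • (volume : Measure ((Fin k → ℝ) × ℝ)) :=
    Measure.isAddLeftInvariant_eq_smul ν volume
  refine ⟨Measure.addHaarScalarFactor ν volume, ?_, ?_⟩
  · exact_mod_cast Measure.addHaarScalarFactor_pos_of_isAddHaarMeasure ν volume
  · intro A
    have h2 : ν A = volume (Φ '' A) := by
      have h3 : ν A = volume (L ⁻¹' A) :=
        L.toHomeomorph.toMeasurableEquiv.map_apply A
      rw [h3]
      congr 1
      ext x
      constructor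
      · intro hx
        exact ⟨Φ.symm x, hx, by simp⟩
      · rintro ⟨y, hy, rfl⟩
        change Φ.symm (Φ y) ∈ A
        simpa using hy
    have h4 : ν A = (Measure.addHaarScalarFactor ν volume : ℝ≥0∞) * volume A := by
      have h5 : ∀ r : ℝ≥0, (r • (volume : Measure ((Fin k → ℝ) × ℝ))) A =
          (r : ℝ≥0∞) * volume A := by
        intro r
        rw [Measure.smul_apply, ENNReal.smul_def, smul_eq_mul]
      have h6 := congrArg (fun m : Measure ((Fin k → ℝ) × ℝ) => m A) h1
      exact h6.trans (h5 _)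
    rw [Measure.real, ← h2, h4, ENNReal.toReal_mul, Measure.real]
    rfl


/-- a pointed closed cone has bounded slices -/
theorem exists_bound {N : ℕ} {C : Set (Fin N → ℝ)} {e : Fin N → ℝ} (hC : CN C) (he : Pos C e) :
    ∃ M : ℝ, 0 ≤ M ∧ ∀ x ∈ C, ‖x‖ ≤ M * (x ⬝ᵥ e) := by
  have hcomp : IsCompact (C ∩ Metric.sphere (0 : Fin N → ℝ) 1) :=
    (isCompact_sphere (0 : Fin N → ℝ) 1).inter_left hC.closed
  have hcont : Continuous fun x : Fin N → ℝ => x ⬝ᵥ e := by
    unfold dotProduct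
    fun_prop
  rcases (C ∩ Metric.sphere (0 : Fin N → ℝ) 1).eq_empty_or_nonempty with h0 | h0
  · refine ⟨0, le_rfl, ?_⟩
    intro x hx
    by_cases hx0 : x = 0
    · simp [hx0]
    · exfalso
      have : ‖x‖⁻¹ • x ∈ C ∩ Metric.sphere (0 : Fin N → ℝ) 1 := by
        refine ⟨hC.smul _ (by positivity) x hx, ?_⟩
        rw [mem_sphere_zero_iff_norm, norm_smul, norm_inv, norm_norm,
          inv_mul_cancel₀ (norm_ne_zero_iff.2 hx0)]
      rw [h0] at this
      exact this
  · obtain ⟨x0, hx0, hmin⟩ := hcomp.exists_isMinOn h0 hcont.continuousOn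
    have hm : 0 < x0 ⬝ᵥ e := by
      refine he x0 hx0.1 ?_
      rintro rfl
      have := hx0.2
      simp at this
    refine ⟨(x0 ⬝ᵥ e)⁻¹, by positivity, ?_⟩
    intro x hx
    by_cases hx1 : x = 0
    · simp [hx1]
    · have hn : 0 < ‖x‖ := norm_pos_iff.2 hx1
      have h3 : ‖x‖⁻¹ • x ∈ C ∩ Metric.sphere (0 : Fin N → ℝ) 1 := by
        refine ⟨hC.smul _ (by positivity) x hx, ?_⟩
        rw [mem_sphere_zero_iff_norm, norm_smul, norm_inv, norm_norm,
          inv_mul_cancel₀ (norm_ne_zero_iff.2 hx1)]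
      have h4 : x0 ⬝ᵥ e ≤ (‖x‖⁻¹ • x) ⬝ᵥ e := hmin h3
      rw [smul_dotProduct, smul_eq_mul] at h4
      rw [inv_mul_eq_div, le_div_iff₀ hm]
      calc ‖x‖ * (x0 ⬝ᵥ e) ≤ ‖x‖ * (‖x‖⁻¹ * (x ⬝ᵥ e)) := by gcongr
        _ = x ⬝ᵥ e := by rw [← mul_assoc, mul_inv_cancel₀ hn.ne', one_mul]

/-- the volume of the truncated cone over `K` -/
theorem volume_cone {k : ℕ} (K : Set (Fin k → ℝ))
    (hm : MeasurableSet {p : (Fin k → ℝ) × ℝ | p.2 ∈ Icc (0 : ℝ) 1 ∧ p.1 ∈ p.2 • K}) :
    (k + 1) * volume.real {p : (Fin k → ℝ) × ℝ | p.2 ∈ Icc (0 : ℝ) 1 ∧ p.1 ∈ p.2 • K} =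
      volume.real K := by
  have h1 : volume {p : (Fin k → ℝ) × ℝ | p.2 ∈ Icc (0 : ℝ) 1 ∧ p.1 ∈ p.2 • K} =
      ENNReal.ofReal (1 / (k + 1)) * volume K := by
    rw [Measure.volume_eq_prod, Measure.prod_apply_symm hm]
    have h2 : ∀ t : ℝ, volume ((fun x : Fin k → ℝ => (x, t)) ⁻¹'
        {p : (Fin k → ℝ) × ℝ | p.2 ∈ Icc (0 : ℝ) 1 ∧ p.1 ∈ p.2 • K}) =
        (Icc (0 : ℝ) 1).indicator (fun t => ENNReal.ofReal (t ^ k) * volume K) t := by
      intro t
      by_cases ht : t ∈ Icc (0 : ℝ) 1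
      · rw [indicator_of_mem ht]
        have : ((fun x : Fin k → ℝ => (x, t)) ⁻¹'
            {p : (Fin k → ℝ) × ℝ | p.2 ∈ Icc (0 : ℝ) 1 ∧ p.1 ∈ p.2 • K}) = t • K := by
          ext x
          simp only [mem_preimage, mem_ofPred_eq]
          exact ⟨fun h => h.2, fun h => ⟨ht, h⟩⟩
        rw [this, Measure.addHaar_smul, Module.finrank_fin_fun, abs_of_nonneg (pow_nonneg ht.1 k)]
      · rw [indicator_of_notMem ht]
        have : ((fun x : Fin k → ℝ => (x, t)) ⁻¹'
            {p : (Fin k → ℝ) × ℝ | p.2 ∈ Icc (0 : ℝ) 1 ∧ p.1 ∈ p.2 • K}) = ∅ := by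
          ext x
          simp only [mem_preimage, mem_ofPred_eq, mem_empty_iff_false, iff_false]
          exact fun h => ht h.1
        rw [this, measure_empty]
    simp_rw [h2]
    rw [lintegral_indicator measurableSet_Icc, lintegral_mul_const _ (by fun_prop)]
    congr 1
    rw [← ofReal_integral_eq_lintegral_ofReal]
    · congr 1
      rw [integral_Icc_eq_integral_Ioc, ← intervalIntegral.integral_of_le zero_le_one,
        integral_pow]
      simp
    · exact (continuous_pow k).continuousOn.integrableOn_Icc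
    · filter_upwards [ae_restrict_mem measurableSet_Icc] with t ht
      exact pow_nonneg ht.1 k
  rw [Measure.real, h1, ENNReal.toReal_mul, ENNReal.toReal_ofReal (by positivity), Measure.real]
  field_simp

/-- (SEC) sections of cones -/
theorem t_SEC : S_SEC := by
  intro k C e c hC he hc hce
  obtain ⟨Φ, hΦe, hΦc⟩ := exists_coord e c hce
  obtain ⟨δ, hδ, hvol⟩ := exists_scale Φ
  obtain ⟨M, hM0, hM⟩ := exists_bound hC he
  let L := Φ.toContinuousLinearEquiv
  have hLc : Continuous fun p => Φ p := L.continuous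
  have hLs : Continuous fun x => Φ.symm x := L.symm.continuous
  let K : Set (Fin k → ℝ) := {x | Φ (x, 1) ∈ C}
  have hcc : c ∈ C := interior_subset hc
  -- K is a convex body
  have hKcl : IsClosed K := hC.closed.preimage (hLc.comp (by fun_prop))
  have hKcv : Convex ℝ K := by
    intro x hx y hy a b ha hb hab
    have : Φ (a • x + b • y, 1) = a • Φ (x, 1) + b • Φ (y, 1) := by
      rw [← map_smul, ← map_smul, ← map_add]
      congr 1
      simp [hab]
    change Φ (a • x + b • y, 1) ∈ C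
    rw [this]
    exact hC.convex hx hy ha hb hab
  have hK0 : (0 : Fin k → ℝ) ∈ interior K := by
    have h1 : Continuous fun x : Fin k → ℝ => Φ (x, 1) := hLc.comp (by fun_prop)
    have h2 : (fun x : Fin k → ℝ => Φ (x, 1)) ⁻¹' (interior C) ⊆ interior K :=
      (preimage_interior_subset_interior_preimage h1)
    apply h2
    change Φ (0, 1) ∈ interior C
    rw [hΦc]
    exact hc
  have hKbd : Bornology.IsBounded K := by
    have h1 : K ⊆ (fun x => (Φ.symm x).1) '' (Metric.closedBall 0 M) := by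
      intro x hx
      refine ⟨Φ (x, 1), ?_, by simp⟩
      rw [mem_closedBall_zero_iff]
      have := hM _ hx
      rw [hΦe] at this
      simpa using this
    refine ((isCompact_closedBall (0 : Fin (k + 1) → ℝ) M).image ?_).isBounded.subset h1
    exact continuous_fst.comp hLs
  have hKc : IsCompact K := Metric.isCompact_of_isClosed_isBounded hKcl hKbd
  have hNB : NB K := ⟨hKc, hKcv, hK0⟩
  have hK0' : (0 : Fin k → ℝ) ∈ K := interior_subset hK0
  -- description of the cone
  have hCK : ∀ (x : Fin k → ℝ) (t : ℝ), Φ (x, t) ∈ C ↔ 0 ≤ t ∧ x ∈ t • K := by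
    intro x t
    constructor
    · intro h
      by_cases h0 : Φ (x, t) = 0
      · have h1 : (x, t) = (0 : (Fin k → ℝ) × ℝ) := (LinearEquiv.map_eq_zero_iff Φ).1 h0
        have h2 : x = 0 := congrArg Prod.fst h1
        have h3 : t = 0 := congrArg Prod.snd h1
        subst h2 h3
        exact ⟨le_rfl, ⟨0, hK0', by simp⟩⟩
      · have h1 := he _ h h0
        rw [hΦe] at h1
        refine ⟨h1.le, ⟨t⁻¹ • x, ?_, ?_⟩⟩
        · change Φ (t⁻¹ • x, 1) ∈ C
          have : ((t⁻¹ • x, 1) : (Fin k → ℝ) × ℝ) = t⁻¹ • (x, t) := by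
            simp [h1.ne']
          rw [this, map_smul]
          exact hC.smul _ (by positivity) _ h
        · exact smul_inv_smul₀ h1.ne' x
    · rintro ⟨h0, y, hy, rfl⟩
      have : ((t • y, t) : (Fin k → ℝ) × ℝ) = t • (y, 1) := by simp
      change Φ (t • y, t) ∈ C
      rw [this, map_smul]
      exact hC.smul _ h0 _ hy
  have hHHb : Bornology.IsBounded (HH K) := by
    refine hKbd.subset ?_
    intro x hx
    have h1 : gauge K x ≤ 1 := by
      have : gauge K x + gauge K (-x) ≤ 1 := hx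
      have h2 := gauge_nonneg (s := K) (-x)
      linarith
    have h2 := (gauge_le_one_iff_mem_closure hKcv (mem_interior_iff_mem_nhds.1 hK0)).1 h1
    rwa [hKcl.closure_eq] at h2
  refine ⟨K, δ, hNB, hδ, ?_, ?_, ?_⟩
  · -- the order interval
    have h1 : OI C c ⊆ Φ '' (HH K ×ˢ Icc (0 : ℝ) 1) := by
      intro z hz
      obtain ⟨hz1, hz2⟩ := hz
      refine ⟨Φ.symm z, ?_, by simp⟩
      obtain ⟨⟨x, t⟩, rfl⟩ := Φ.surjective z
      rw [LinearEquiv.symm_apply_apply]
      have h2 := (hCK x t).1 hz1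
      have h3 : Φ (-x, 1 - t) ∈ C := by
        have : ((-x, 1 - t) : (Fin k → ℝ) × ℝ) = (0, 1) - (x, t) := by simp
        rw [this, map_sub, hΦc]
        exact hz2
      have h4 := (hCK _ _).1 h3
      refine ⟨?_, ⟨h2.1, by linarith [h4.1]⟩⟩
      change gauge K x + gauge K (-x) ≤ 1
      have h5 := gauge_le_of_mem h2.1 h2.2
      have h6 := gauge_le_of_mem h4.1 h4.2
      linarith
    have h2 : volume.real (Φ '' (HH K ×ˢ Icc (0 : ℝ) 1)) = δ * volume.real (HH K) := by
      rw [hvol]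
      congr 1
      rw [Measure.volume_eq_prod, measureReal_prod_prod]
      simp
    rw [← h2]
    refine measureReal_mono h1 ?_
    have : Bornology.IsBounded (Φ '' (HH K ×ˢ Icc (0 : ℝ) 1)) :=
      L.lipschitz.isBounded_image (hHHb.prod (Metric.isBounded_Icc 0 1))
    exact this.measure_lt_top.ne
  · -- the truncated cone
    have h1 : T C e = Φ '' {p : (Fin k → ℝ) × ℝ | p.2 ∈ Icc (0 : ℝ) 1 ∧ p.1 ∈ p.2 • K} := by
      ext z
      obtain ⟨⟨x, t⟩, rfl⟩ := Φ.surjective z
      rw [Φ.injective.mem_set_image]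
      change (Φ (x, t) ∈ C ∧ Φ (x, t) ⬝ᵥ e ≤ 1) ↔ ((0 ≤ t ∧ t ≤ 1) ∧ x ∈ t • K)
      rw [hCK, hΦe]
      tauto
    have h2 : MeasurableSet {p : (Fin k → ℝ) × ℝ | p.2 ∈ Icc (0 : ℝ) 1 ∧ p.1 ∈ p.2 • K} := by
      have h3 : {p : (Fin k → ℝ) × ℝ | p.2 ∈ Icc (0 : ℝ) 1 ∧ p.1 ∈ p.2 • K} =
          (fun p => Φ p) ⁻¹' C ∩ {p | p.2 ≤ 1} := by
        ext ⟨x, t⟩
        change ((0 ≤ t ∧ t ≤ 1) ∧ x ∈ t • K) ↔ (Φ (x, t) ∈ C ∧ t ≤ 1)
        rw [hCK]
        tauto
      rw [h3]
      exact ((hC.closed.preimage hLc).inter (isClosed_le continuous_snd continuous_const)).measurableSet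
    rw [h1, hvol, ← volume_cone K h2]
    ring
  · -- the double truncated cone
    intro u hu0 hu1
    have hTs : T C e ⊆ Φ '' (K ×ˢ Icc (0 : ℝ) 1) := by
      intro z hz
      obtain ⟨⟨x, t⟩, rfl⟩ := Φ.surjective z
      rw [Φ.injective.mem_set_image]
      have h2 := (hCK x t).1 hz.1
      have h3 : t ≤ 1 := by
        have := hz.2
        rwa [hΦe] at this
      refine ⟨?_, ⟨h2.1, h3⟩⟩
      obtain ⟨y, hy, hyx⟩ := h2.2
      have h4 : t • y ∈ K := by
        have := hKcv hy hK0' h2.1 (by linarith : (0 : ℝ) ≤ 1 - t) (by ring)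
        simpa using this
      rw [← hyx]
      exact h4
    have hsub : HT C e u ⊆ Φ '' (HU K u ×ˢ Icc (-u) (1 - u)) := by
      refine convexHull_min ?_ ?_
      · intro z hz
        rcases hz with hz | hz
        · obtain ⟨w, hw, rfl⟩ := hz
          obtain ⟨⟨x, t⟩, ⟨hx, ht⟩, rfl⟩ := hTs hw
          refine ⟨((1 - u) • x, (1 - u) * t), ⟨?_, ?_, ?_⟩, ?_⟩
          · exact subset_convexHull ℝ _ (Or.inl ⟨x, hx, rfl⟩)
          · have : 0 ≤ (1 - u) * t := mul_nonneg (by linarith) ht.1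
            change -u ≤ (1 - u) * t
            linarith
          · have := mul_le_mul_of_nonneg_left ht.2 (by linarith : (0 : ℝ) ≤ 1 - u)
            change (1 - u) * t ≤ 1 - u
            linarith
          · have : (((1 - u) • x, (1 - u) * t) : (Fin k → ℝ) × ℝ) = (1 - u) • (x, t) := by simp
            rw [this, map_smul]
        · obtain ⟨w, hw, rfl⟩ := hz
          obtain ⟨⟨x, t⟩, ⟨hx, ht⟩, rfl⟩ := hTs hw
          refine ⟨((-u) • x, (-u) * t), ⟨?_, ?_, ?_⟩, ?_⟩
          · exact subset_convexHull ℝ _ (Or.inr ⟨x, hx, rfl⟩)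
          · have := mul_le_mul_of_nonneg_left ht.2 hu0
            change -u ≤ (-u) * t
            linarith
          · have : 0 ≤ u * t := mul_nonneg hu0 ht.1
            change (-u) * t ≤ 1 - u
            linarith
          · have : (((-u) • x, (-u) * t) : (Fin k → ℝ) × ℝ) = (-u) • (x, t) := by simp
            rw [this, map_smul]
      · exact ((convex_convexHull ℝ _).prod (convex_Icc _ _)).linear_image Φ.toLinearMap
    have hHUb : Bornology.IsBounded (HU K u) := by
      unfold HU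
      rw [isBounded_convexHull]
      exact (hKbd.smul₀ _).union (hKbd.smul₀ _)
    have h2 : volume.real (Φ '' (HU K u ×ˢ Icc (-u) (1 - u))) = δ * volume.real (HU K u) := by
      rw [hvol]
      congr 1
      rw [Measure.volume_eq_prod, measureReal_prod_prod]
      simp
    rw [← h2]
    refine measureReal_mono hsub ?_
    have : Bornology.IsBounded (Φ '' (HU K u ×ˢ Icc (-u) (1 - u))) :=
      L.lipschitz.isBounded_image (hHUb.prod (Metric.isBounded_Icc _ _))
    exact this.measure_lt_top.ne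

end Pool.Agent.TH909.EQ
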